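import Pool.Agent.Q17.DM.Stm
import Pool.Agent.Y63.AWC.Deg

/-!
# Project DM of helper17: the polynomials of the numbers of characters
-/

set_option autoImplicit false

open scoped Classical

noncomputable section

namespace Pool.Agent.Q252.DM

open Pool.Agent Pool.Agent.Helper884
open Pool.Agent.H254R3.IN hiding NN
open Pool.Agent.Y63.KR Pool.Agent.Q17.WR Pool.Agent.Q17.DC Pool.Agent.Q17.AM Pool.Agent.Q17.OS
  Pool.Agent.Q17.DM

section df

variable {K : Type} [Group K]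

/-- the degree -/
def dg (ψ : K → ℂ) : ℕ := ⌊(ψ 1).re⌋₊

theorem dg_eq {ψ : K → ℂ} {n : ℕ} (h : (n : ℂ) = ψ 1) : dg ψ = n := by
  unfold dg
  rw [← h, Complex.natCast_re, Nat.floor_natCast]

theorem dg_irr {ψ : K → ℂ} (h : IsIrr ψ) : (dg ψ : ℂ) = ψ 1 ∧ 0 < dg ψ := by
  obtain ⟨n, hn0, hn⟩ := h.deg
  rw [dg_eq hn]
  exact ⟨hn, hn0⟩

/-- the defect -/
def df (p : ℕ) (ψ : K → ℂ) : ℕ :=
  (Nat.card K).factorization p - (dg ψ).factorization p

theorem dg_le [Finite K] (p : ℕ) {ψ : K → ℂ} (h : IsIrr ψ) :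
    (dg ψ).factorization p ≤ (Nat.card K).factorization p := by
  have i1 := Fintype.ofFinite K
  have h1 : dg ψ ∣ Nat.card K := Y63.AWC.deg_dvd h (dg_irr h).1.symm
  exact (Nat.factorization_le_iff_dvd (dg_irr h).2.ne' Nat.card_pos.ne').2 h1 p

theorem df_add [Finite K] (p : ℕ) {ψ : K → ℂ} (h : IsIrr ψ) :
    df p ψ + (dg ψ).factorization p = (Nat.card K).factorization p :=
  Nat.sub_add_cancel (dg_le p h)

theorem defect_iff [Finite K] (p d : ℕ) {ψ : K → ℂ} (h : IsIrr ψ) :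
    (∃ n : ℕ, (n : ℂ) = ψ 1 ∧ (Nat.card K).factorization p = d + n.factorization p) ↔
      df p ψ = d := by
  have h1 := df_add p h
  constructor
  · rintro ⟨n, hn, h2⟩
    rw [dg_eq hn] at h1
    omega
  · intro h2
    refine ⟨dg ψ, (dg_irr h).1, ?_⟩
    omega

end df

section gf

variable {Γ : Type} [Group Γ]

/-- the characters counted, without the condition on the defect -/
def Cs (O : ValuationSubring ℂ) (B : Set (Γ → ℂ)) (X : Set Γ) (H : Subgroup Γ) (ψ : H → ℂ) :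
    Prop :=
  IsIrr ψ ∧ ∀ χ ∈ B, ∀ x ∈ X,
    omega χ x - ∑ᶠ y : {y : H // IsConj x (y : Γ)}, ψ y / ψ 1 ∈ O.nonunits

theorem Cd_iff [Finite Γ] (p : ℕ) (O : ValuationSubring ℂ) (B : Set (Γ → ℂ)) (X : Set Γ) (d : ℕ)
    (H : Subgroup Γ) (ψ : H → ℂ) : Cd p O B X d H ψ ↔ Cs O B X H ψ ∧ df p ψ = d := by
  constructor
  · intro h
    exact ⟨⟨h.irr, h.ind⟩, (defect_iff p d h.irr).1 h.defect⟩
  · rintro ⟨⟨h1, h2⟩, h3⟩
    exact ⟨h1, h2, (defect_iff p d h1).2 h3⟩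

theorem irr_finite {K : Type} [Group K] [Finite K] : Finite {ψ : K → ℂ // IsIrr ψ} := by
  have i1 := Fintype.ofFinite K
  have h1 : {ψ : K → ℂ | IsIrr ψ}.Finite := by
    refine (IC.Irr K).finite_toSet.subset fun ψ hψ => ?_
    exact Finset.mem_coe.2 (IC.mem_Irr.2 hψ)
  exact h1

instance Cs_finite [Finite Γ] (O : ValuationSubring ℂ) (B : Set (Γ → ℂ)) (X : Set Γ)
    (H : Subgroup Γ) : Finite {ψ : H → ℂ // Cs O B X H ψ} := by
  have h1 : Finite {ψ : H → ℂ // IsIrr ψ} := irr_finite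
  exact Finite.of_injective
    (fun ψ : {ψ : H → ℂ // Cs O B X H ψ} => (⟨ψ.1, ψ.2.1⟩ : {ψ : H → ℂ // IsIrr ψ}))
    (fun a b h => Subtype.ext (congrArg (fun z : {ψ : H → ℂ // IsIrr ψ} => z.1) h))

/-- the generating function -/
def gf (p : ℕ) (O : ValuationSubring ℂ) (B : Set (Γ → ℂ)) (X : Set Γ) (H : Subgroup Γ) :
    Polynomial ℤ := ∑ᶠ ψ : {ψ : H → ℂ // Cs O B X H ψ}, Polynomial.X ^ df p ψ.1

theorem pol_gf [Finite Γ] (p : ℕ) (O : ValuationSubring ℂ) (B : Set (Γ → ℂ)) (X : Set Γ)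
    (H : Subgroup Γ) : pol p O B X H = (Nat.card H) • gf p O B X H := by
  unfold pol gf
  congr 1
  letI i1 : Fintype {ψ : H → ℂ // Cs O B X H ψ} := Fintype.ofFinite _
  rw [finsum_eq_sum_of_fintype]
  have hmap : ∀ ψ ∈ (Finset.univ : Finset {ψ : H → ℂ // Cs O B X H ψ}),
      df p ψ.1 ∈ Finset.range ((Nat.card Γ).factorization p + 1) := by
    intro ψ _
    rw [Finset.mem_range]
    have h1 : (Nat.card H).factorization p ≤ (Nat.card Γ).factorization p :=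
      (Nat.factorization_le_iff_dvd Nat.card_pos.ne' Nat.card_pos.ne').2
        (Subgroup.card_subgroup_dvd_card H) p
    have h2 : df p ψ.1 ≤ (Nat.card H).factorization p := Nat.sub_le _ _
    omega
  rw [← Finset.sum_fiberwise_of_maps_to hmap]
  refine Finset.sum_congr rfl fun d _ => ?_
  have h3 : ∀ ψ ∈ (Finset.univ : Finset {ψ : H → ℂ // Cs O B X H ψ}).filter
      (fun ψ => df p ψ.1 = d), (Polynomial.X : Polynomial ℤ) ^ df p ψ.1 = Polynomial.X ^ d := by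
    intro ψ hψ
    rw [(Finset.mem_filter.1 hψ).2]
  rw [Finset.sum_congr rfl h3, Finset.sum_const, Polynomial.X_pow_eq_monomial,
    Polynomial.smul_monomial]
  have h4 : cd p O B X d H = ((Finset.univ : Finset {ψ : H → ℂ // Cs O B X H ψ}).filter
      (fun ψ => df p ψ.1 = d)).card := by
    unfold cd
    let e : {ψ : H → ℂ // Cd p O B X d H ψ} ≃
        {ψ : {ψ : H → ℂ // Cs O B X H ψ} // df p ψ.1 = d} :=
      { toFun := fun ψ => ⟨⟨ψ.1, ((Cd_iff p O B X d H ψ.1).1 ψ.2).1⟩,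
          ((Cd_iff p O B X d H ψ.1).1 ψ.2).2⟩
        invFun := fun ψ => ⟨ψ.1.1, (Cd_iff p O B X d H ψ.1.1).2 ⟨ψ.1.2, ψ.2⟩⟩
        left_inv := fun _ => rfl
        right_inv := fun _ => rfl }
    rw [Nat.card_congr e, Nat.card_eq_fintype_card, Fintype.card_subtype]
  rw [h4]
  congr 1
  simp

end gf

end Pool.Agent.Q252.DM
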