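import Pool.Agent.Q252.DM.Cla
import Pool.Agent.Q252.DM.Gf
import Pool.Agent.Q222.TC.TBC

/-!
# Project DM of helper17, job CDM: the numbers of characters for subgroups of the base group
-/

set_option autoImplicit false

open scoped Classical

noncomputable section

namespace Pool.Agent.Q252.DM

open Pool.Agent Pool.Agent.Helper884
open Pool.Agent.H254R3.IN hiding NN
open Pool.Agent.Y63.KR Pool.Agent.Q17.WR Pool.Agent.Q17.DC Pool.Agent.Q17.AM Pool.Agent.Q17.OS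
  Pool.Agent.Q17.DM
open Pool.Agent.Q166.AM

variable {G : Type} [Group G] {r : ℕ} [Fact r.Prime]

/-- the product of the subgroups as a product of groups -/
def ePw (H : Cy r → Subgroup G) : Pw H ≃* (∀ ω, H ω) where
  toFun x ω := ⟨x.1.left ω, x.2.2 ω⟩
  invFun m := ⟨⟨fun ω => (m ω : G), 1⟩, rfl, fun ω => (m ω).2⟩
  left_inv x := Subtype.ext (SemidirectProduct.ext rfl x.2.1.symm)
  right_inv _ := rfl
  map_mul' x y := by
    funext ω
    apply Subtype.ext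
    change x.1.left ω * y.1.left (x.1.right⁻¹ * ω) = x.1.left ω * y.1.left ω
    rw [x.2.1, inv_one, one_mul]

/-- the product of the characters -/
def pc (H : Cy r → Subgroup G) (f : ∀ ω, H ω → ℂ) (x : Pw H) : ℂ := dp f (ePw H x)

theorem card_Pw (H : Cy r → Subgroup G) : Nat.card (Pw H) = ∏ ω, Nat.card (H ω) := by
  rw [Nat.card_congr (ePw H).toEquiv, Nat.card_pi]

variable [Fintype G] {H : Cy r → Subgroup G}

theorem pc_irr {f : ∀ ω, H ω → ℂ} (hf : ∀ ω, IsIrr (f ω)) : IsIrr (pc H f) := by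
  have : ∀ ω, Fintype (H ω) := fun ω => Fintype.ofFinite _
  exact Q222.TC.irr_comp (ePw H) (dp_irr hf)

theorem irr_pc {ψ : Pw H → ℂ} (h : IsIrr ψ) :
    ∃ f : ∀ ω, H ω → ℂ, (∀ ω, IsIrr (f ω)) ∧ ψ = pc H f := by
  have : ∀ ω, Fintype (H ω) := fun ω => Fintype.ofFinite _
  obtain ⟨f, hf, hfg⟩ := irr_dp (Q222.TC.irr_comp (ePw H).symm h)
  refine ⟨f, hf, ?_⟩
  funext x
  have h1 := congrFun hfg (ePw H x)
  rw [MulEquiv.symm_apply_apply] at h1
  exact h1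

theorem pc_inj {f f' : ∀ ω, H ω → ℂ} (hf : ∀ ω, IsIrr (f ω)) (hf' : ∀ ω, IsIrr (f' ω))
    (h : pc H f = pc H f') : f = f' := by
  have : ∀ ω, Fintype (H ω) := fun ω => Fintype.ofFinite _
  apply dp_inj hf hf'
  funext y
  have h1 := congrFun h ((ePw H).symm y)
  unfold pc at h1
  rw [MulEquiv.apply_symm_apply] at h1
  exact h1

theorem dg_pc {f : ∀ ω, H ω → ℂ} (hf : ∀ ω, IsIrr (f ω)) : dg (pc H f) = ∏ ω, dg (f ω) := by
  apply dg_eq
  push_cast
  unfold pc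
  rw [map_one, dp_one]
  exact Finset.prod_congr rfl fun ω _ => (dg_irr (hf ω)).1

theorem df_pc (p : ℕ) {f : ∀ ω, H ω → ℂ} (hf : ∀ ω, IsIrr (f ω)) :
    df p (pc H f) = ∑ ω, df p (f ω) := by
  have h1 := df_add p (pc_irr hf)
  rw [dg_pc hf, card_Pw, Nat.factorization_prod (fun ω _ => (dg_irr (hf ω)).2.ne'),
    Nat.factorization_prod (fun ω _ => Nat.card_pos.ne'), Finsupp.finsetSum_apply,
    Finsupp.finsetSum_apply, Finset.sum_congr rfl fun ω _ => (df_add p (hf ω)).symm,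
    Finset.sum_add_distrib] at h1
  omega

theorem sum_sub {Γ : Type} [Group Γ] [Finite Γ] (K : Subgroup Γ) [Fintype K] (ψ : K → ℂ) (x : Γ) :
    ∑ᶠ y : {y : K // IsConj x (y : Γ)}, ψ y / ψ 1 = S1 K.subtype ψ x :=
  fs (fun y : K => IsConj x (y : Γ)) (fun y => ψ y / ψ 1)

theorem sum_pc [∀ ω, Fintype (H ω)] (f : ∀ ω, H ω → ℂ) (x : Wc G r) :
    ∑ᶠ y : {y : Pw H // IsConj x (y : Wc G r)}, pc H f y / pc H f 1 =
      TT (fun ω => (H ω).subtype) f x := by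
  have : Fintype (Pw H) := Fintype.ofFinite _
  rw [fs (fun y : Pw H => IsConj x (y : Wc G r)) (fun y => pc H f y / pc H f 1)]
  unfold TT
  refine Fintype.sum_equiv (ePw H).toEquiv _ _ fun y => ?_
  have h1 : bs (fun ω => (H ω).subtype) ((ePw H).toEquiv y) = (y : Wc G r) :=
    congrArg Subtype.val ((ePw H).left_inv y)
  rw [h1]
  have h2 : pc H f 1 = dp f 1 := by
    unfold pc
    rw [map_one]
  rw [h2]
  rfl

section cdm

variable {O : ValuationSubring ℂ} {p : ℕ} [Fact p.Prime] {B : Set (G → ℂ)}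

theorem I1_iff {K : Subgroup G} [Fintype K] {ψ : K → ℂ} (h : IsIrr ψ) :
    Cs O B Set.univ K ψ ↔ I1 O B K.subtype ψ := by
  unfold Cs I1
  simp only [sum_sub, Set.mem_univ, forall_true_left]
  exact ⟨fun h' => h'.2, fun h' => ⟨h, h'⟩⟩

theorem pc_Cs (hL : S_CCL) (hpr : p ≠ r) (hp : (p : ℂ) ∈ O.nonunits) (hB : IsBlock O B)
    (hLX : IsBlock O (LX (r := r) B)) {f : ∀ ω, H ω → ℂ} (hf : ∀ ω, IsIrr (f ω)) :
    Cs O (LX (r := r) B) {x | x.right = 1} (Pw H) (pc H f) ↔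
      ∀ ω, Cs O B Set.univ (H ω) (f ω) := by
  have : ∀ ω, Fintype (H ω) := fun ω => Fintype.ofFinite _
  have h1 := claim hL hpr hp hB hLX (fun ω => (H ω).subtype)
    (fun ω => Subtype.val_injective) hf
  have h2 : (∀ ω, Cs O B Set.univ (H ω) (f ω)) ↔ ∀ ω, I1 O B (H ω).subtype (f ω) :=
    forall_congr' fun ω => I1_iff (hf ω)
  rw [h2, ← h1]
  unfold Cs
  simp only [sum_pc]
  exact ⟨fun h => h.2, fun h => ⟨pc_irr hf, h⟩⟩

theorem gf_Pw (hL : S_CCL) (hpr : p ≠ r) (hp : (p : ℂ) ∈ O.nonunits) (hB : IsBlock O B)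
    (hLX : IsBlock O (LX (r := r) B)) (H : Cy r → Subgroup G) :
    gf p O (LX (r := r) B) {x | x.right = 1} (Pw H) = ∏ ω, gf p O B Set.univ (H ω) := by
  letI i1 : Fintype {ψ : Pw H → ℂ // Cs O (LX (r := r) B) {x | x.right = 1} (Pw H) ψ} :=
    Fintype.ofFinite _
  letI i2 : ∀ ω, Fintype {ψ : H ω → ℂ // Cs O B Set.univ (H ω) ψ} := fun ω => Fintype.ofFinite _
  have h1 : ∀ ω, gf p O B Set.univ (H ω) =
      ∑ ψ : {ψ : H ω → ℂ // Cs O B Set.univ (H ω) ψ}, Polynomial.X ^ df p ψ.1 := by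
    intro ω
    unfold gf
    rw [finsum_eq_sum_of_fintype]
  rw [Finset.prod_congr rfl fun ω _ => h1 ω, Finset.prod_univ_sum, Fintype.piFinset_univ]
  unfold gf
  rw [finsum_eq_sum_of_fintype]
  let g : (∀ ω, {ψ : H ω → ℂ // Cs O B Set.univ (H ω) ψ}) →
      {ψ : Pw H → ℂ // Cs O (LX (r := r) B) {x | x.right = 1} (Pw H) ψ} :=
    fun f => ⟨pc H fun ω => (f ω).1,
      (pc_Cs hL hpr hp hB hLX fun ω => (f ω).2.1).2 fun ω => (f ω).2⟩
  have hg : Function.Bijective g := by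
    constructor
    · intro f f' h
      have h2 := pc_inj (fun ω => (f ω).2.1) (fun ω => (f' ω).2.1) (congrArg Subtype.val h)
      funext ω
      exact Subtype.ext (congrFun h2 ω)
    · rintro ⟨ψ, hψ⟩
      obtain ⟨f, hf, rfl⟩ := irr_pc hψ.1
      exact ⟨fun ω => ⟨f ω, (pc_Cs hL hpr hp hB hLX hf).1 hψ ω⟩, rfl⟩
  symm
  refine Fintype.sum_equiv (Equiv.ofBijective g hg) _ _ fun f => ?_
  rw [Finset.prod_pow_eq_pow_sum, ← df_pc p fun ω => (f ω).2.1]
  rfl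

end cdm

theorem t_CDM : S_ZPR → S_CLS → S_CCL → S_BLK → S_CDM := by
  intro _ _ hL hK p r _ _ hpr G _ _ O hp B hB hP H
  have hLX := (hK G p r hpr O hp B hB hP).1
  rw [pol_gf, gf_Pw hL hpr hp hB hLX H, card_Pw,
    Finset.prod_congr rfl fun ω _ => pol_gf p O B Set.univ (H ω)]
  simp only [nsmul_eq_mul]
  rw [Finset.prod_mul_distrib, Nat.cast_prod]

end Pool.Agent.Q252.DM
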