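import Pool.Agent.Q17.TC.All
import Pool.Agent.Q66.OS.Box

/-!
# Project DM of helper17: the characters of a product of a family of groups
-/

set_option autoImplicit false

open scoped Classical

noncomputable section

namespace Pool.Agent.Q252.DM

open Pool.Agent Pool.Agent.Helper884 Pool.Agent.H254R3.IN
open Pool.Agent.Q17.TC (t_IRN t_HOM)
open Pool.Agent.Q66.OS (dl_class B_dl)

section dp

variable {I : Type} [Fintype I] {H : I → Type} [∀ i, Group (H i)]

/-- the product of the functions `f i` -/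
def dp (f : ∀ i, H i → ℂ) (m : ∀ i, H i) : ℂ := ∏ i, f i (m i)

theorem dp_one (f : ∀ i, H i → ℂ) : dp f 1 = ∏ i, f i 1 := rfl

variable [∀ i, Fintype (H i)]

theorem B_dp (f f' : ∀ i, H i → ℂ) : IC.B (dp f) (dp f') = ∏ i, IC.B (f i) (f' i) := by
  unfold IC.B dp
  rw [Finset.prod_mul_distrib, Finset.prod_univ_sum, Fintype.piFinset_univ]
  congr 1
  · rw [Nat.card_pi, Nat.cast_prod, Finset.prod_inv_distrib]
  · refine Finset.sum_congr rfl fun m _ => ?_
    rw [← Finset.prod_mul_distrib]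
    rfl

set_option linter.unusedSectionVars false in
/-- the product of characters is the character of a representation -/
theorem dp_rep (f : ∀ i, H i → ℂ) (hf : ∀ i, IsIrr (f i)) (s : Finset I) :
    ∃ (V : Type) (_ : AddCommGroup V) (_ : Module ℂ V) (_ : FiniteDimensional ℂ V)
      (ρ : Representation ℂ (∀ i, H i) V), ∀ m, ρ.character m = ∏ i ∈ s, f i (m i) := by
  induction s using Finset.induction_on with
  | empty =>
    refine ⟨ℂ, inferInstance, inferInstance, inferInstance,
      Representation.trivial ℂ (∀ i, H i) ℂ, fun m => ?_⟩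
    rw [Finset.prod_empty]
    change LinearMap.trace ℂ ℂ (Representation.trivial ℂ (∀ i, H i) ℂ m) = 1
    have h1 : Representation.trivial ℂ (∀ i, H i) ℂ m = LinearMap.id := by
      ext
      simp
    rw [h1, LinearMap.trace_id]
    simp
  | insert a s ha ih =>
    obtain ⟨V, _, _, _, ρ, hρ⟩ := ih
    obtain ⟨W, _, _, _, σ, _, hσ⟩ := hf a
    let σ' : Representation ℂ (∀ i, H i) W := σ.comp (Pi.evalMonoidHom H a)
    refine ⟨_, _, _, inferInstance, Representation.tprod σ' ρ, fun m => ?_⟩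
    rw [Representation.char_tensor, Finset.prod_insert ha, Pi.mul_apply, hρ m, hσ]
    rfl

theorem dp_irr {f : ∀ i, H i → ℂ} (hf : ∀ i, IsIrr (f i)) : IsIrr (dp f) := by
  have h0 : IC.B (dp f) (dp f) = 1 := by
    rw [B_dp]
    apply Finset.prod_eq_one
    intro i _
    have h1 := IC.B_irr (chi := f i) (psi := f i) (hf i) (hf i)
    rwa [if_pos rfl] at h1
  obtain ⟨V, _, _, _, ρ, hρ⟩ := dp_rep f hf Finset.univ
  have hch : ρ.character = dp f := funext hρ
  rw [← hch] at h0 ⊢
  exact t_IRN t_HOM (∀ i, H i) V ρ h0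

theorem dl_dp : Q66.OS.dl (∀ i, H i) = ∑ f ∈ Fintype.piFinset (fun i : I => IC.Irr (H i)),
    (∏ i, IC.B (Q66.OS.dl (H i)) (f i)) • dp f := by
  funext m
  have h1 : Q66.OS.dl (∀ i, H i) m = ∏ i, Q66.OS.dl (H i) (m i) := by
    unfold Q66.OS.dl
    by_cases h : m = 1
    · rw [if_pos h, h]
      simp
    · rw [if_neg h]
      have h2 : ∃ i, m i ≠ 1 := by
        by_contra hcon
        push Not at hcon
        exact h (funext hcon)
      obtain ⟨i, hi⟩ := h2
      symm
      apply Finset.prod_eq_zero (Finset.mem_univ i)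
      rw [if_neg hi]
  rw [h1]
  have h2 : ∀ i, Q66.OS.dl (H i) (m i) =
      ∑ chi ∈ IC.Irr (H i), IC.B (Q66.OS.dl (H i)) chi * chi (m i) := by
    intro i
    have := congrFun (IC.expand (Q66.OS.dl (H i)) (dl_class (H i))) (m i)
    rw [this, Finset.sum_apply]
    rfl
  rw [Finset.prod_congr rfl fun i _ => h2 i, Finset.prod_univ_sum, Finset.sum_apply]
  refine Finset.sum_congr rfl fun f _ => ?_
  rw [Finset.prod_mul_distrib]
  rfl

theorem irr_dp {θ : (∀ i, H i) → ℂ} (hθ : IsIrr θ) :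
    ∃ f : ∀ i, H i → ℂ, (∀ i, IsIrr (f i)) ∧ θ = dp f := by
  by_contra hcon
  push Not at hcon
  have h1 : IC.B (Q66.OS.dl (∀ i, H i)) θ = 0 := by
    rw [dl_dp, IC.B_sum_left]
    apply Finset.sum_eq_zero
    intro f hf
    rw [IC.B_smul_left]
    have hf' : ∀ i, IsIrr (f i) := fun i => IC.mem_Irr.1 (Fintype.mem_piFinset.1 hf i)
    have h2 := IC.B_irr (chi := dp f) (psi := θ) (dp_irr hf') hθ
    rw [h2, if_neg (fun h => hcon f hf' h.symm), mul_zero]
  rw [B_dl] at h1
  rcases mul_eq_zero.1 h1 with h | h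
  · exact inv_ne_zero IC.cardG_ne h
  · exact Pool.Agent.H254R3.IN.IsIrr.one_ne hθ h

theorem dp_inj {f f' : ∀ i, H i → ℂ} (hf : ∀ i, IsIrr (f i)) (hf' : ∀ i, IsIrr (f' i))
    (h : dp f = dp f') : f = f' := by
  have h1 : IC.B (dp f) (dp f') = 1 := by
    rw [← h, B_dp]
    apply Finset.prod_eq_one
    intro i _
    have := IC.B_irr (chi := f i) (psi := f i) (hf i) (hf i)
    rwa [if_pos rfl] at this
  rw [B_dp] at h1
  funext i
  by_contra hne
  have h2 := IC.B_irr (chi := f i) (psi := f' i) (hf i) (hf' i)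
  rw [if_neg hne] at h2
  rw [Finset.prod_eq_zero (Finset.mem_univ i) h2] at h1
  exact zero_ne_one h1

end dp

end Pool.Agent.Q252.DM
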