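import Pool.Agent.Q17.DM.Stm
import Pool.Agent.Q166.AM.COR
import Pool.Agent.Q252.DM.Dp

/-!
# Project DM of helper17: the condition on the blocks for products of characters
-/

set_option autoImplicit false

open scoped Classical

noncomputable section

namespace Pool.Agent.Q252.DM

open Pool.Agent.H254R3.IN hiding NN
open Pool.Agent.Y63.KR Pool.Agent.Q17.WR Pool.Agent.Q17.DC Pool.Agent.Q17.AM Pool.Agent.Q17.OS
  Pool.Agent.Q17.DM
open Pool.Agent.Q166.AM

variable {G : Type} [Group G] {r : ℕ} [Fact r.Prime]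
  {H : Cy r → Type} [∀ ω, Group (H ω)] [∀ ω, Fintype (H ω)]

/-- the sum for one factor -/
def S1 {K : Type} [Group K] [Fintype K] (j : K →* G) (ψ : K → ℂ) (g : G) : ℂ :=
  ∑ z : K, if IsConj g (j z) then ψ z / ψ 1 else 0

/-- the condition for one factor -/
def I1 (O : ValuationSubring ℂ) (B : Set (G → ℂ)) {K : Type} [Group K] [Fintype K] (j : K →* G)
    (ψ : K → ℂ) : Prop :=
  ∀ χ ∈ B, ∀ g : G, omega χ g - S1 j ψ g ∈ O.nonunits

/-- an element of the base group -/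
def bs (j : ∀ ω, H ω →* G) (m : ∀ ω, H ω) : Wc G r := ⟨fun ω => j ω (m ω), 1⟩

/-- the sum for the product -/
def TT (j : ∀ ω, H ω →* G) (f : ∀ ω, H ω → ℂ) (x : Wc G r) : ℂ :=
  ∑ m : ∀ ω, H ω, if IsConj x (bs j m) then dp f m / dp f 1 else 0

lemma S1_mem (O : ValuationSubring ℂ) {K : Type} [Group K] [Fintype K] (j : K →* G) {ψ : K → ℂ}
    (hψ : IsIrr ψ) (g : G) : S1 j ψ g ∈ O := by
  unfold S1
  exact group_mem hψ (fun z => IsConj g (j z)) (fun x y hxy hx => hx.trans (j.map_isConj hxy))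

omit [∀ ω, Fintype (H ω)] in
lemma bs_conj (j : ∀ ω, H ω →* G) {m m' : ∀ ω, H ω} (h : IsConj m m') :
    IsConj (bs (r := r) j m) (bs j m') := by
  obtain ⟨c, hc⟩ := isConj_iff.mp h
  refine isConj_iff.mpr ⟨bs j c, ?_⟩
  have hr : (bs (r := r) j m).right = 1 := rfl
  apply SemidirectProduct.ext
  · funext ω
    rw [conj_left _ _ hr]
    have h1 : ((bs (r := r) j c).right⁻¹ * ω) = ω := by
      change (1 : Cy r)⁻¹ * ω = ω
      rw [inv_one, one_mul]
    rw [h1]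
    change j ω (c ω) * j ω (m ω) * (j ω (c ω))⁻¹ = j ω (m' ω)
    rw [← map_mul, ← map_inv, ← map_mul, ← hc]
    rfl
  · rw [conj_right]
    rfl

lemma TT_mem (O : ValuationSubring ℂ) (j : ∀ ω, H ω →* G) {f : ∀ ω, H ω → ℂ}
    (hf : ∀ ω, IsIrr (f ω)) (x : Wc G r) : TT j f x ∈ O := by
  unfold TT
  exact group_mem (dp_irr hf) (fun m => IsConj x (bs j m))
    (fun m m' hm hx => hx.trans (bs_conj j hm))

omit [∀ ω, Group (H ω)] in
lemma prod_ite_sum' (R : ∀ ω, H ω → Prop) (F : ∀ ω, H ω → ℂ) :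
    ∑ m : ∀ ω, H ω, (if ∀ ω, R ω (m ω) then ∏ ω, F ω (m ω) else 0) =
      ∏ ω, ∑ z : H ω, if R ω z then F ω z else 0 := by
  rw [Finset.prod_univ_sum, Fintype.piFinset_univ]
  refine Finset.sum_congr rfl fun m _ => ?_
  split_ifs with h
  · exact Finset.prod_congr rfl fun ω _ => (if_pos (h ω)).symm
  · push Not at h
    obtain ⟨ω, hω⟩ := h
    exact (Finset.prod_eq_zero (Finset.mem_univ ω) (if_neg hω)).symm

variable [Fintype G]

lemma al_TT (j : ∀ ω, H ω →* G) (f : ∀ ω, H ω → ℂ) {x : Wc G r} (hx : x.right = 1) :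
    (al x.left : ℂ) * TT j f x = ∑ a : Cy r, ∏ ω, S1 (j ω) (f ω) (x.left (a * ω)) := by
  have h1 : TT j f x = ∑ m : ∀ ω, H ω,
      if ∃ a : Cy r, ∀ ω, IsConj (x.left (a * ω)) (j ω (m ω)) then dp f m / dp f 1 else 0 := by
    unfold TT
    refine Finset.sum_congr rfl fun m _ => ?_
    have h3 : IsConj x (bs j m) ↔ ∃ a : Cy r, ∀ ω, IsConj (x.left (a * ω)) (j ω (m ω)) := by
      rw [isConj_base hx]
      exact ⟨fun h => h.2, fun h => ⟨rfl, h⟩⟩
    by_cases h : IsConj x (bs j m)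
    · rw [if_pos h, if_pos (h3.mp h)]
    · rw [if_neg h, if_neg (fun h' => h (h3.mpr h'))]
  rw [h1, al_sum x.left (fun (m : ∀ ω, H ω) ω => j ω (m ω)) (fun m => dp f m / dp f 1)]
  refine Finset.sum_congr rfl fun a _ => ?_
  unfold S1
  rw [← prod_ite_sum' (fun ω z => IsConj (x.left (a * ω)) (j ω z)) (fun ω z => f ω z / f ω 1)]
  refine Finset.sum_congr rfl fun m _ => ?_
  have h2 : dp f m / dp f 1 = ∏ ω, f ω (m ω) / f ω 1 := by
    rw [Finset.prod_div_distrib]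
    rfl
  rw [h2]

section claim

variable {O : ValuationSubring ℂ} {p : ℕ} [Fact p.Prime] {B : Set (G → ℂ)}

include O in
lemma red_I1 {K : Type} [Group K] [Fintype K] {j : K →* G} {ψ : K → ℂ} (hψ : IsIrr ψ)
    (hB : IsBlock O B) (h : I1 O B j ψ) {χ : G → ℂ} (hχ : χ ∈ B) (g : G) :
    red O (S1 j ψ g) = red O (omega χ g) :=
  ((red_eq_iff ((hB.irr χ hχ).omega_mem O g) (S1_mem O j hψ g)).mpr (h χ hχ g)).symm

/-- if all factors satisfy the condition so does the product -/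
theorem claim_mpr (hL : S_CCL) (hpr : p ≠ r) (hp : (p : ℂ) ∈ O.nonunits) (hB : IsBlock O B)
    (hLX : IsBlock O (LX (r := r) B)) (j : ∀ ω, H ω →* G) {f : ∀ ω, H ω → ℂ}
    (hf : ∀ ω, IsIrr (f ω)) (h : ∀ ω, I1 O B (j ω) (f ω)) {χ : Wc G r → ℂ}
    (hχ : χ ∈ LX (r := r) B) {x : Wc G r} (hx : x.right = 1) :
    omega χ x - TT j f x ∈ O.nonunits := by
  have hχi : IsIrr χ := hLX.irr χ hχ
  obtain ⟨χ₀, h0⟩ := hB.nonempty
  obtain ⟨n, hn, -, -, hn2⟩ := (hL G r).1 x hx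
  have hal := al_mul hx hn
  have hc0 : (cch χ₀ 1 : Wc G r → ℂ) ∈ LX (r := r) B := Or.inr ⟨χ₀, h0, 1, rfl⟩
  have hmem0 : ∀ y : G, omega χ₀ y ∈ O := fun y => (hB.irr _ h0).omega_mem O y
  have hr0 : ((r : ℕ) : RF O) ≠ 0 := by
    rw [← red_natCast]
    intro h
    rw [red_nat_eq_zero_iff hp] at h
    exact hpr ((Nat.prime_dvd_prime_iff_eq Fact.out Fact.out).mp h)
  have hal' : ((al x.left : ℕ) : RF O) * (n : RF O) = (r : RF O) := by
    exact_mod_cast congrArg (fun k : ℕ => (k : RF O)) hal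
  have hal0 : ((al x.left : ℕ) : RF O) ≠ 0 := by
    intro h
    rw [h, zero_mul] at hal'
    exact hr0 hal'.symm
  rw [← red_eq_iff (hχi.omega_mem O x) (TT_mem O j hf x)]
  rw [hLX.red_eq hχ hc0 x, hn2 χ₀ 1, red_mul (natCast_mem' n)
    (prod_mem fun ω _ => hmem0 _), red_prod _ _ (fun ω _ => hmem0 _), red_natCast]
  apply mul_left_cancel₀ hal0
  have h1 : ((al x.left : ℕ) : RF O) * red O (TT j f x) =
      red O ((al x.left : ℂ) * TT j f x) := by
    rw [red_mul (natCast_mem' _) (TT_mem O j hf x), red_natCast]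
  have hS : ∀ (a ω : Cy r), S1 (j ω) (f ω) (x.left (a * ω)) ∈ O := fun a ω =>
    S1_mem O (j ω) (hf ω) _
  rw [h1, al_TT j f hx, red_sum _ _ (fun a _ => prod_mem fun ω _ => hS a ω)]
  have h2 : ∀ a : Cy r, red O (∏ ω, S1 (j ω) (f ω) (x.left (a * ω))) =
      ∏ ω, red O (omega χ₀ (x.left ω)) := by
    intro a
    rw [red_prod _ _ (fun ω _ => hS a ω),
      Finset.prod_congr rfl fun ω _ => red_I1 (hf ω) hB (h ω) h0 (x.left (a * ω))]
    exact Equiv.prod_comp (Equiv.mulLeft a) (fun ω => red O (omega χ₀ (x.left ω)))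
  rw [Finset.sum_congr rfl fun a _ => h2 a, Finset.sum_const, Finset.card_univ, card_Cy,
    nsmul_eq_mul, ← mul_assoc, hal']

/-- the class function for the converse -/
def UU (g₀ : G) (c : ℂ) (x : Wc G r) : ℂ :=
  if x.right = 1 then ∏ ω, (ind g₀ (x.left ω) + c * dl (x.left ω)) else 0

omit [Fintype G] in
lemma ind_cl' (g₀ g y : G) : ind g₀ (y * g * y⁻¹) = ind g₀ g := by
  unfold ind
  have : IsConj g₀ (y * g * y⁻¹) ↔ IsConj g₀ g := by
    have h2 : IsConj g (y * g * y⁻¹) := isConj_iff.mpr ⟨y, rfl⟩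
    exact ⟨fun h => h.trans h2.symm, fun h => h.trans h2⟩
  simp only [this]

omit [Fintype G] in
lemma dl_cl' (g y : G) : dl (y * g * y⁻¹) = dl g := by
  unfold dl
  have : y * g * y⁻¹ = 1 ↔ g = 1 := by
    constructor
    · intro h
      have h2 : g = y⁻¹ * (y * g * y⁻¹) * y := by group
      rw [h2, h]
      group
    · intro h
      rw [h]
      group
  simp only [this]

omit [Fintype G] in
lemma UU_cl (g₀ : G) (c : ℂ) : IsCl (UU (r := r) g₀ c) := by
  intro g y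
  unfold UU
  rw [conj_right]
  split_ifs with h
  · have h1 : ∀ ω, (ind g₀ ((y * g * y⁻¹).left ω) + c * dl ((y * g * y⁻¹).left ω)) =
        (ind g₀ (g.left (y.right⁻¹ * ω)) + c * dl (g.left (y.right⁻¹ * ω))) := by
      intro ω
      rw [conj_left _ _ h, ind_cl', dl_cl']
    rw [Finset.prod_congr rfl fun ω _ => h1 ω]
    exact Equiv.prod_comp (Equiv.mulLeft (y.right⁻¹))
      (fun ω => (ind g₀ (g.left ω) + c * dl (g.left ω)))
  · rfl

lemma UU_mem {g₀ : G} {c : ℂ} (hc : c ∈ O) (x : Wc G r) : UU g₀ c x ∈ O := by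
  unfold UU
  split_ifs
  · exact prod_mem fun ω _ => O.add_mem _ _ (ind_mem O _ _) (O.mul_mem _ _ hc (dl_mem O _))
  · exact O.zero_mem

lemma Om_UU (g₀ : G) (c : ℂ) {θ : G → ℂ} (hθ : IsIrr θ) :
    Om (UU (r := r) g₀ c) (cch θ 1) = ∏ _ω : Cy r, (omega θ g₀ + c) := by
  have h1 : ∑ x : Wc G r, UU g₀ c x * cch θ 1 x =
      ∏ _ω : Cy r, ((omega θ g₀ + c) * θ 1) := by
    rw [sum_base _ (fun x hx => by unfold UU; rw [if_neg hx, zero_mul])]
    have h2 : ∀ m : Cy r → G, UU g₀ c (⟨m, 1⟩ : Wc G r) * cch θ 1 (⟨m, 1⟩ : Wc G r) =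
        (∏ ω, (ind g₀ (m ω) + c * dl (m ω))) * prf (fun _ : Cy r => θ) m := by
      intro m
      unfold UU cch prf
      rw [if_pos rfl, if_pos rfl]
    rw [Finset.sum_congr rfl fun m _ => h2 m, sum_prod (fun g => ind g₀ g + c * dl g)]
    refine Finset.prod_congr rfl fun ω _ => ?_
    have h3 := Om_ind hθ g₀
    have h4 := Om_dl hθ
    unfold Om at h3 h4
    rw [div_eq_iff hθ.one_ne] at h3 h4
    rw [add_mul, ← h3]
    have h5 : c * θ 1 = c * ∑ g, dl g * θ g := by rw [h4, one_mul]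
    rw [h5, Finset.mul_sum, ← Finset.sum_add_distrib]
    refine Finset.sum_congr rfl fun g _ => ?_
    ring
  unfold Om
  rw [h1, cch_one, Finset.prod_mul_distrib]
  have h4 : (∏ _ω : Cy r, θ 1) ≠ 0 := Finset.prod_ne_zero_iff.mpr fun ω _ => hθ.one_ne
  rw [mul_div_assoc, div_self h4, mul_one]

lemma Om_classes {χ : G → ℂ} (hχ : IsIrr χ) {f : G → ℂ} (hf : IsCl f) :
    Om f χ = ∑ K : ConjClasses G, f (rep K) * omega χ (rep K) := by
  unfold Om
  rw [sum_classes, Finset.sum_div]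
  refine Finset.sum_congr rfl fun K _ => ?_
  have h2 : ∀ g ∈ Finset.univ.filter (fun g => IsConj (rep K) g),
      f g * χ g = f (rep K) * χ (rep K) := by
    intro g hg
    have hc := (Finset.mem_filter.mp hg).2
    rw [hf.isConj hc, hχ.isConj hc]
  rw [Finset.sum_congr rfl h2, Finset.sum_const, nsmul_eq_mul]
  have h3 : (Finset.univ.filter (fun g => IsConj (rep K) g)).card =
      Nat.card {y : G // IsConj (rep K) y} := by
    rw [Nat.card_eq_fintype_card, Fintype.card_subtype]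
  rw [h3]
  unfold omega
  ring

/-- the class sum of the sums over the product -/
lemma sum_TT (j : ∀ ω, H ω →* G) (f : ∀ ω, H ω → ℂ) {U : Wc G r → ℂ} (hU : IsCl U) :
    ∑ K : ConjClasses (Wc G r), U (rep K) * TT j f (rep K) =
      ∑ m : ∀ ω, H ω, U (bs j m) * (dp f m / dp f 1) := by
  unfold TT
  simp only [Finset.mul_sum]
  rw [Finset.sum_comm]
  refine Finset.sum_congr rfl fun m _ => ?_
  rw [Finset.sum_eq_single (ConjClasses.mk (bs j m))]
  · rw [if_pos (rep_mk _), hU.isConj (rep_mk _)]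
  · intro K _ hK
    rw [if_neg, mul_zero]
    intro h
    exact hK ((mk_eq_iff _ _).mpr h).symm
  · intro h
    exact absurd (Finset.mem_univ _) h

lemma UU_bs (j : ∀ ω, H ω →* G) (hj : ∀ ω, Function.Injective (j ω)) {f : ∀ ω, H ω → ℂ}
    (hf : ∀ ω, IsIrr (f ω)) (g₀ : G) (c : ℂ) :
    ∑ m : ∀ ω, H ω, UU (r := r) g₀ c (bs j m) * (dp f m / dp f 1) =
      ∏ ω, (S1 (j ω) (f ω) g₀ + c) := by
  have h1 : ∀ ω, S1 (j ω) (f ω) g₀ + c =
      ∑ z : H ω, (ind g₀ (j ω z) + c * dl (j ω z)) * (f ω z / f ω 1) := by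
    intro ω
    have h2 : ∑ z : H ω, dl (j ω z) * (f ω z / f ω 1) = 1 := by
      rw [Finset.sum_eq_single 1]
      · rw [map_one, div_self (hf ω).one_ne]
        unfold dl
        rw [if_pos rfl, mul_one]
      · intro z _ hz
        unfold dl
        rw [if_neg, zero_mul]
        intro h
        exact hz (hj ω (by rw [h, map_one]))
      · intro h
        exact absurd (Finset.mem_univ _) h
    have h3 : S1 (j ω) (f ω) g₀ = ∑ z : H ω, ind g₀ (j ω z) * (f ω z / f ω 1) := by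
      unfold S1 ind
      refine Finset.sum_congr rfl fun z _ => ?_
      split_ifs
      · rw [one_mul]
      · rw [zero_mul]
    have h4 : c = c * ∑ z : H ω, dl (j ω z) * (f ω z / f ω 1) := by rw [h2, mul_one]
    rw [h3]
    conv_lhs => rw [h4]
    rw [Finset.mul_sum, ← Finset.sum_add_distrib]
    refine Finset.sum_congr rfl fun z _ => ?_
    ring
  rw [Finset.prod_congr rfl fun ω _ => h1 ω, Finset.prod_univ_sum, Fintype.piFinset_univ]
  refine Finset.sum_congr rfl fun m _ => ?_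
  unfold UU dp
  have h5 : (bs (r := r) j m).right = 1 := rfl
  rw [if_pos h5, ← Finset.prod_div_distrib, ← Finset.prod_mul_distrib]
  rfl

/-- if the product satisfies the condition so do the factors -/
theorem claim_mp (hB : IsBlock O B) (hLX : IsBlock O (LX (r := r) B)) (j : ∀ ω, H ω →* G)
    (hj : ∀ ω, Function.Injective (j ω)) {f : ∀ ω, H ω → ℂ} (hf : ∀ ω, IsIrr (f ω))
    (h : ∀ χ ∈ LX (r := r) B, ∀ x : Wc G r, x.right = 1 → omega χ x - TT j f x ∈ O.nonunits)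
    (ω₀ : Cy r) : I1 O B (j ω₀) (f ω₀) := by
  intro χ hχ g₀
  have hχi := hB.irr χ hχ
  have hc0 : (cch χ 1 : Wc G r → ℂ) ∈ LX (r := r) B := Or.inr ⟨χ, hχ, 1, rfl⟩
  have hci := hLX.irr _ hc0
  set c : ℂ := - S1 (j ω₀) (f ω₀) g₀ with hc
  have hcO : c ∈ O := O.neg_mem _ (S1_mem O _ (hf ω₀) _)
  have h1 : Om (UU (r := r) g₀ c) (cch χ 1) - ∏ ω, (S1 (j ω) (f ω) g₀ + c) ∈ O.nonunits := by
    rw [Om_classes hci (UU_cl g₀ c), ← UU_bs j hj hf g₀ c, ← sum_TT j f (UU_cl g₀ c),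
      ← Finset.sum_sub_distrib]
    refine sum_mem fun K _ => ?_
    rw [← mul_sub]
    by_cases hK : (rep K).right = 1
    · have h2 := h _ hc0 (rep K) hK
      have h3 := nonunits_mul (UU_mem (r := r) (g₀ := g₀) hcO (rep K)) h2
      exact h3
    · unfold UU
      rw [if_neg hK, zero_mul]
      exact O.nonunits.zero_mem
  have h2 : ∏ ω, (S1 (j ω) (f ω) g₀ + c) = 0 := by
    apply Finset.prod_eq_zero (Finset.mem_univ ω₀)
    rw [hc, add_neg_cancel]
  rw [h2, sub_zero, Om_UU g₀ c hχi] at h1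
  have hm : omega χ g₀ + c ∈ O := O.add_mem _ _ (hχi.omega_mem O g₀) hcO
  have h3 := red_eq_zero h1
  rw [red_prod _ _ (fun _ _ => hm), Finset.prod_const] at h3
  have h4 := (pow_eq_zero_iff (by
    rw [Finset.card_univ, card_Cy]
    exact (Fact.out : r.Prime).ne_zero)).mp h3
  rw [red_eq_zero_iff hm] at h4
  rw [hc, ← sub_eq_add_neg] at h4
  exact h4

theorem claim (hL : S_CCL) (hpr : p ≠ r) (hp : (p : ℂ) ∈ O.nonunits) (hB : IsBlock O B)
    (hLX : IsBlock O (LX (r := r) B)) (j : ∀ ω, H ω →* G) (hj : ∀ ω, Function.Injective (j ω))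
    {f : ∀ ω, H ω → ℂ} (hf : ∀ ω, IsIrr (f ω)) :
    (∀ χ ∈ LX (r := r) B, ∀ x : Wc G r, x.right = 1 → omega χ x - TT j f x ∈ O.nonunits) ↔
      ∀ ω, I1 O B (j ω) (f ω) :=
  ⟨fun h ω => claim_mp hB hLX j hj hf h ω,
    fun h _ hχ _ hx => claim_mpr hL hpr hp hB hLX j hf h hχ hx⟩

end claim

end Pool.Agent.Q252.DM
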